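import Pool.Agent.Lib.MP_a7c66d_lc.Play

/-!
# The permutation-streaming game has subpolynomial cost
-/

open Filter Topology

namespace Pool.Agent.Results.MP_a7c66d_lc.Subpolynomial

section Definitions

variable {n : ℕ}

/-- The coordinates that arrive in the first `t` steps (the `s`-th arrival is `σ s`, counted from
`0`), in order of arrival, each with the bit that Alice writes in it. The bit written in an arriving
coordinate is given by the function `alice`, applied to the history so far and the arriving
coordinate. -/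
def history (alice : List (Fin n × Bool) → Fin n → Bool) (σ : Equiv.Perm (Fin n)) :
    ℕ → List (Fin n × Bool)
  | 0 => []
  | t + 1 =>
    if h : t < n then
      history alice σ t ++ [(σ ⟨t, h⟩, alice (history alice σ t) (σ ⟨t, h⟩))]
    else history alice σ t

/-- The vector `v ∈ {0,1}^n` that Bob sees: the coordinate that arrives last is `b`, every other
coordinate holds the bit that Alice wrote when it arrived. -/
def finalVector (alice : List (Fin n × Bool) → Fin n → Bool) (σ : Equiv.Perm (Fin n)) (b : Bool) :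
    Fin n → Bool := fun j =>
  if (σ.symm j : ℕ) + 1 = n then b else alice (history alice σ (σ.symm j)) j

variable (n)

/-- A protocol for the game `G_n`: a strategy for Alice and a strategy for Bob such that Bob's set
always contains the coordinate that arrives last. -/
structure Protocol where
  /-- Alice's strategy -/
  alice : List (Fin n × Bool) → Fin n → Bool
  /-- Bob's strategy -/
  bob : (Fin n → Bool) → Finset (Fin n)
  correct : ∀ (σ : Equiv.Perm (Fin n)) (b : Bool) (t : Fin n), (t : ℕ) + 1 = n →
    σ t ∈ bob (finalVector alice σ b)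

variable {n}

/-- The expected cost of a protocol: the expectation of the size of Bob's set, for a uniformly
random permutation and an independent uniform bit. -/
noncomputable def Protocol.expectedCost (Pr : Protocol n) : ℝ :=
  (∑ σ : Equiv.Perm (Fin n), ∑ b : Bool, ((Pr.bob (finalVector Pr.alice σ b)).card : ℝ)) /
    (2 * (n.factorial : ℝ))

/-- The worst-case cost of a protocol: the maximal size of Bob's set. -/
def Protocol.worstCost (Pr : Protocol n) : ℕ :=
  Finset.univ.sup (fun p : Equiv.Perm (Fin n) × Bool =>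
    (Pr.bob (finalVector Pr.alice p.1 p.2)).card)

variable (n)

/-- `tildeC n` is the minimal expected cost of a protocol for `G_n`. -/
noncomputable def tildeC : ℝ := ⨅ Pr : Protocol n, Pr.expectedCost

/-- `worstC n` is the minimal worst-case cost of a protocol for `G_n`. -/
noncomputable def worstC : ℕ := ⨅ Pr : Protocol n, Pr.worstCost

end Definitions

section Proof

open Pool.Agent.Lib.MP_a7c66d_lc
open scoped symmDiff

lemma history_fst {n : ℕ} (alice : List (Fin n × Bool) → Fin n → Bool)
    (σ : Equiv.Perm (Fin n)) (t : ℕ) (ht : t ≤ n) :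
    (history alice σ t).map Prod.fst = (List.ofFn (fun i => σ i)).take t := by
  induction t with
  | zero => simp [history]
  | succ t ih =>
    have h : t < n := ht
    rw [history, dif_pos h, List.map_append, ih h.le]
    have h' : t < (List.ofFn (fun i => σ i)).length := by simpa using h
    rw [List.take_succ_eq_append_getElem h']
    simp

/-- A winning star forest gives a protocol. -/
lemma exists_protocol {n k : ℕ} (hn : 1 ≤ n) (hk : 1 ≤ k)
    {P : Set (Finset (Fin n) × Finset (Fin n))} (h1 : ∀ p ∈ P, p.2.card ≤ k)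
    (h2 : ∀ p ∈ P, ∀ q ∈ P, p ≠ q → 3 ≤ (p.1 ∆ q.1).card)
    (hw : Win (edgeRel P) ∅ Finset.univ) : ∃ Pr : Protocol n, Pr.worstCost ≤ k := by
  classical
  let R := edgeRel P
  let alice : List (Fin n × Bool) → Fin n → Bool := fun l i => strat R (l.map Prod.fst ++ [i])
  let bob : (Fin n → Bool) → Finset (Fin n) := fun v =>
    Finset.univ.filter (fun i => edgeRel P (Finset.univ.filter (fun j => v j = true)) i)
  refine ⟨⟨alice, bob, ?_⟩, ?_⟩
  · intro σ b t ht
    set L := List.ofFn (fun i => σ i) with hL
    have hLlen : L.length = n := by simp [hL]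
    have hLnd : L.Nodup := List.nodup_ofFn.2 σ.injective
    have htake : ∀ m (hm : m < n), L.take (m + 1) = L.take m ++ [σ ⟨m, hm⟩] := by
      intro m hm
      have h' : m < L.length := by rw [hLlen]; exact hm
      rw [List.take_succ_eq_append_getElem h']
      simp [hL]
    -- membership is stable
    have hstable : ∀ (s : ℕ) (hs : s < n) (m : ℕ), s + 1 ≤ m → m ≤ n →
        (σ ⟨s, hs⟩ ∈ (posOf R (L.take m)).1 ↔ σ ⟨s, hs⟩ ∈ (posOf R (L.take (s + 1))).1) := by
      intro s hs m hsm
      induction m, hsm using Nat.le_induction with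
      | base => intro _; exact Iff.rfl
      | succ m hm ih =>
        intro hmn
        have hne : σ ⟨s, hs⟩ ≠ σ ⟨m, hmn⟩ := by
          intro h
          have := congrArg Fin.val (σ.injective h)
          simp only at this
          omega
        rw [htake m hmn, posOf_concat]
        change σ ⟨s, hs⟩ ∈ upd _ _ _ ↔ _
        rw [mem_upd]
        constructor
        · rintro (h | h)
          · exact absurd h.1 hne
          · exact (ih (by omega)).1 h.2
        · intro h
          exact Or.inr ⟨hne, (ih (by omega)).2 h⟩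
    -- the last position
    have hn1 : n - 1 < n := by omega
    have hpos := posOf_win hw (L.take (n - 1)) (hLnd.sublist (List.take_sublist _ _)) (by
      rw [List.length_take, hLlen, Fintype.card_fin]
      omega)
    have htn : (⟨n - 1, hn1⟩ : Fin n) = t := Fin.ext (by simp only; omega)
    have hS : (posOf R (L.take (n - 1))).2 = {σ t} := by
      rw [posOf_snd]
      ext j
      rw [Finset.mem_sdiff, List.mem_toFinset, Finset.mem_singleton]
      obtain ⟨s, rfl⟩ := σ.surjective j
      have hmem : σ s ∈ L.take (n - 1) ↔ (s : ℕ) < n - 1 := by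
        rw [List.mem_take_iff_getElem]
        constructor
        · rintro ⟨m, hm, hms⟩
          have h3 : L[m]'(by omega) = σ ⟨m, by omega⟩ := by simp [hL]
          rw [h3] at hms
          have := congrArg Fin.val (σ.injective hms)
          simp only at this
          omega
        · intro hs
          refine ⟨s, by omega, ?_⟩
          simp [hL]
      rw [hmem]
      constructor
      · rintro ⟨-, h⟩
        have : s = t := Fin.ext (by omega)
        rw [this]
      · intro h
        have : s = t := σ.injective h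
        refine ⟨Finset.mem_univ _, ?_⟩
        rw [this]
        omega
    change Win R (posOf R (L.take (n - 1))).1 (posOf R (L.take (n - 1))).2 at hpos
    rw [hS] at hpos
    have hR := hpos.of_singleton
    refine Finset.mem_filter.2 ⟨Finset.mem_univ _, ?_⟩
    refine edgeRel_inv P _ _ _ ?_ hR
    intro j hj
    obtain ⟨s, rfl⟩ := σ.surjective j
    have hst : s ≠ t := fun h => hj (by rw [h])
    have hs1 : (s : ℕ) + 1 ≠ n := fun h => hst (Fin.ext (by omega))
    have hs2 : (s : ℕ) < n := s.2
    rw [Finset.mem_filter]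
    have hv : finalVector alice σ b (σ s) = strat R (L.take (s + 1)) := by
      unfold finalVector
      rw [Equiv.symm_apply_apply, if_neg hs1]
      change strat R ((history alice σ s).map Prod.fst ++ [σ s]) = _
      rw [history_fst alice σ s hs2.le, htake s hs2]
    rw [hv]
    have hstr : strat R (L.take (s + 1)) = true ↔ σ s ∈ (posOf R (L.take (s + 1))).1 := by
      rw [htake s hs2]
      exact strat_concat R _ _
    rw [hstr, hstable s hs2 (n - 1) (by omega) (by omega)]
    simp
  · refine Finset.sup_le ?_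
    intro p _
    exact degree_le hk h1 h2 _

/-- The explicit form of the upper bound. -/
lemma worstC_le {n q L : ℕ} (hn : 1 ≤ n) (hq : 15 ≤ q)
    (hm : q ^ (4 * L * (L + 1)) + 1 ≤ 2 ^ q) (hnq : n ≤ q ^ (2 * L * (L + 1))) :
    worstC n ≤ q ^ (4 * L) := by
  have hne : (Finset.univ : Finset (Fin n)).Nonempty := ⟨⟨0, hn⟩, Finset.mem_univ _⟩
  obtain ⟨P, h1, h2, h3⟩ := exists_forest (V := Fin n) hq hm L (2 * L) le_rfl (by omega)
    Finset.univ hne (by
      rw [Finset.card_univ, Fintype.card_fin]
      refine hnq.trans (le_of_eq ?_)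
      congr 1
      ring)
  obtain ⟨Pr, hPr⟩ := exists_protocol hn (Nat.one_le_pow _ _ (by omega)) h1 h2 h3
  exact (ciInf_le (OrderBot.bddBelow _) Pr).trans hPr

lemma expectedCost_nonneg {n : ℕ} (Pr : Protocol n) : 0 ≤ Pr.expectedCost := by
  unfold Protocol.expectedCost
  positivity

lemma expectedCost_le {n : ℕ} (Pr : Protocol n) : Pr.expectedCost ≤ (Pr.worstCost : ℝ) := by
  unfold Protocol.expectedCost
  rw [div_le_iff₀ (by positivity)]
  have h1 : ∀ σ : Equiv.Perm (Fin n), ∀ b : Bool,
      ((Pr.bob (finalVector Pr.alice σ b)).card : ℝ) ≤ (Pr.worstCost : ℝ) := by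
    intro σ b
    have : (Pr.bob (finalVector Pr.alice σ b)).card ≤ Pr.worstCost :=
      Finset.le_sup (f := fun p : Equiv.Perm (Fin n) × Bool =>
        (Pr.bob (finalVector Pr.alice p.1 p.2)).card) (Finset.mem_univ (σ, b))
    exact_mod_cast this
  calc (∑ σ : Equiv.Perm (Fin n), ∑ b : Bool, ((Pr.bob (finalVector Pr.alice σ b)).card : ℝ))
      ≤ ∑ σ : Equiv.Perm (Fin n), ∑ b : Bool, (Pr.worstCost : ℝ) :=
        Finset.sum_le_sum (fun σ _ => Finset.sum_le_sum (fun b _ => h1 σ b))
    _ = (Pr.worstCost : ℝ) * (2 * (n.factorial : ℝ)) := by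
        rw [Finset.sum_const, Finset.sum_const, Finset.card_univ, Finset.card_univ,
          Fintype.card_bool, Fintype.card_perm, Fintype.card_fin]
        simp only [nsmul_eq_mul]
        push_cast
        ring

lemma protocol_nonempty (n : ℕ) : Nonempty (Protocol n) :=
  ⟨⟨fun _ _ => false, fun _ => Finset.univ, fun _ _ _ _ => Finset.mem_univ _⟩⟩

lemma tildeC_nonneg (n : ℕ) : 0 ≤ tildeC n := by
  have := protocol_nonempty n
  exact le_ciInf (fun Pr => expectedCost_nonneg Pr)

lemma tildeC_le (n : ℕ) : tildeC n ≤ (worstC n : ℝ) := by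
  have := protocol_nonempty n
  obtain ⟨Pr, hPr⟩ := ciInf_mem (fun Pr : Protocol n => Pr.worstCost)
  have h1 : worstC n = Pr.worstCost := hPr.symm
  rw [h1]
  refine (ciInf_le ⟨0, ?_⟩ Pr).trans (expectedCost_le Pr)
  rintro _ ⟨Pr', rfl⟩
  exact expectedCost_nonneg Pr'

/-- The quantitative bound. -/
lemma worstC_exp : ∀ᶠ n : ℕ in atTop,
    (worstC n : ℝ) ≤ Real.exp (14 * √(Real.log n * Real.log (Real.log n))) := by
  have hlog : Tendsto (fun n : ℕ => Real.log n) atTop atTop :=
    Real.tendsto_log_atTop.comp tendsto_natCast_atTop_atTop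
  have hlo : ∀ᶠ x : ℝ in atTop, Real.log x ≤ 1 / 10 * x := by
    have h := Real.isLittleO_log_id_atTop.bound (by norm_num : (0 : ℝ) < 1 / 10)
    filter_upwards [h, eventually_ge_atTop (1 : ℝ)] with x hx hx1
    rw [Real.norm_of_nonneg (Real.log_nonneg hx1), id, Real.norm_of_nonneg (by linarith)] at hx
    exact hx
  filter_upwards [hlog.eventually hlo, hlog.eventually (eventually_ge_atTop (21 : ℝ)),
    eventually_ge_atTop 1] with n h10 h21 hn
  set l := Real.log n with hl
  set t := Real.log l with ht
  have hlpos : 0 < l := by linarith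
  have ht1 : Real.log 21 ≤ t := Real.log_le_log (by norm_num) h21
  have h21pos : (1 : ℝ) ≤ Real.log 21 := by
    rw [Real.le_log_iff_exp_le (by norm_num)]
    have := Real.exp_one_lt_d9
    linarith
  have htpos : 0 < t := by linarith
  set q := ⌈20 * l⌉₊ with hq
  have hq1 : 20 * l ≤ (q : ℝ) := Nat.le_ceil _
  have hq2 : (q : ℝ) ≤ 21 * l := by
    have := Nat.ceil_lt_add_one (by positivity : 0 ≤ 20 * l)
    linarith
  have hq15 : 15 ≤ q := by
    have : (15 : ℝ) ≤ q := by linarith
    exact_mod_cast this
  have hqpos : (0 : ℝ) < q := by linarith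
  set Λ := Real.log q with hΛ
  have hΛ1 : Λ ≤ 2 * t := by
    have h1 : Λ ≤ Real.log (21 * l) := Real.log_le_log hqpos hq2
    rw [Real.log_mul (by norm_num) hlpos.ne'] at h1
    linarith
  have hΛ2 : t ≤ Λ := by
    refine Real.log_le_log hlpos ?_
    linarith
  have hΛpos : 0 < Λ := by linarith
  set s := √(l / Λ) with hs
  have hs0 : 0 ≤ s := Real.sqrt_nonneg _
  have hs2 : s ^ 2 * Λ = l := by
    rw [hs, Real.sq_sqrt (by positivity)]
    field_simp
  set L := ⌈s⌉₊ with hL
  have hL1 : s ≤ (L : ℝ) := Nat.le_ceil _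
  have hL2 : (L : ℝ) ≤ s + 1 := (Nat.ceil_lt_add_one hs0).le
  -- `s * Λ`
  have hsΛ : s * Λ = √(l * Λ) := by
    rw [hs, Real.sqrt_div' _ hΛpos.le, Real.sqrt_mul' _ hΛpos.le]
    rw [div_mul_eq_mul_div, div_eq_iff (Real.sqrt_pos.2 hΛpos).ne', mul_assoc,
      Real.mul_self_sqrt hΛpos.le]
  have hamgm : s * Λ ≤ (l + Λ) / 2 := by
    have h1 : (s * Λ) ^ 2 = l * Λ := by
      rw [hsΛ, Real.sq_sqrt (by positivity)]
    nlinarith [sq_nonneg (l - Λ), mul_nonneg hs0 hΛpos.le]
  -- first condition
  have hc1 : n ≤ q ^ (2 * L * (L + 1)) := by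
    have h1 : l ≤ ((2 * L * (L + 1) : ℕ) : ℝ) * Λ := by
      push_cast
      have h2 : s ^ 2 ≤ (L : ℝ) ^ 2 := by nlinarith
      have h3 : s ^ 2 * Λ ≤ (L : ℝ) ^ 2 * Λ := mul_le_mul_of_nonneg_right h2 hΛpos.le
      have h4 : (0 : ℝ) ≤ (L : ℝ) := by positivity
      nlinarith [mul_nonneg h4 hΛpos.le, mul_nonneg (sq_nonneg (L : ℝ)) hΛpos.le]
    have h2 : Real.log n ≤ Real.log ((q : ℝ) ^ (2 * L * (L + 1))) := by
      rw [Real.log_pow]
      exact h1
    have hn0 : (0 : ℝ) < n := by exact_mod_cast hn
    have h3 := (Real.log_le_log_iff hn0 (by positivity)).1 h2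
    exact_mod_cast h3
  -- second condition
  have hlog2 : (0.69 : ℝ) ≤ Real.log 2 := by
    have := Real.log_two_gt_d9
    linarith
  have hc2 : q ^ (4 * L * (L + 1)) + 1 ≤ 2 ^ q := by
    have h1 : ((4 * L * (L + 1) : ℕ) : ℝ) * Λ ≤ ((q - 1 : ℕ) : ℝ) * Real.log 2 := by
      have h2 : ((q - 1 : ℕ) : ℝ) = (q : ℝ) - 1 := by
        rw [Nat.cast_sub (by omega)]
        norm_num
      rw [h2]
      push_cast
      have h3 : (L : ℝ) * (L + 1) ≤ (s + 1) * (s + 2) := by
        have h4 : (0 : ℝ) ≤ (L : ℝ) := by positivity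
        nlinarith
      have h5 : (L : ℝ) * (L + 1) * Λ ≤ (s + 1) * (s + 2) * Λ :=
        mul_le_mul_of_nonneg_right h3 hΛpos.le
      have h6 : (s + 1) * (s + 2) * Λ = l + 3 * (s * Λ) + 2 * Λ := by
        rw [← hs2]
        ring
      have h7 : (20 * l - 1) * 0.69 ≤ ((q : ℝ) - 1) * Real.log 2 := by
        refine mul_le_mul (by linarith) hlog2 (by norm_num) (by linarith)
      have h8 : 4 * (L : ℝ) * (L + 1) * Λ = 4 * ((L : ℝ) * (L + 1) * Λ) := by ring
      rw [h8]
      linarith
    have h2 : Real.log ((q : ℝ) ^ (4 * L * (L + 1))) ≤ Real.log ((2 : ℝ) ^ (q - 1)) := by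
      rw [Real.log_pow, Real.log_pow]
      exact h1
    have h3 := (Real.log_le_log_iff (by positivity) (by positivity)).1 h2
    have h4 : q ^ (4 * L * (L + 1)) ≤ 2 ^ (q - 1) := by exact_mod_cast h3
    have h5 : 2 ^ q = 2 * 2 ^ (q - 1) := by
      rw [← pow_succ']
      congr 1
      omega
    have h6 : 1 ≤ 2 ^ (q - 1) := Nat.one_le_two_pow
    omega
  have hmain := worstC_le hn hq15 hc2 hc1
  have hmain' : (worstC n : ℝ) ≤ (q : ℝ) ^ (4 * L) := by exact_mod_cast hmain
  refine hmain'.trans ?_
  have h1 : (q : ℝ) ^ (4 * L) = Real.exp (((4 * L : ℕ) : ℝ) * Λ) := by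
    rw [Real.exp_nat_mul, Real.exp_log hqpos]
  rw [h1]
  refine Real.exp_le_exp.2 ?_
  push_cast
  have h2 : 4 * (L : ℝ) * Λ ≤ 4 * (s * Λ) + 4 * Λ := by nlinarith
  have h3 : s * Λ ≤ 3 / 2 * √(l * t) := by
    rw [hsΛ]
    have h4 : √(l * Λ) ≤ √(l * (2 * t)) := Real.sqrt_le_sqrt (by nlinarith)
    refine h4.trans ?_
    rw [Real.sqrt_le_left (by positivity)]
    rw [mul_pow, Real.sq_sqrt (by positivity)]
    nlinarith [mul_pos hlpos htpos]
  have h4 : t ≤ √(l * t) := by
    refine Real.le_sqrt_of_sq_le ?_
    nlinarith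
  linarith

end Proof

/-- **The expected and the worst-case cost of the permutation-streaming game are subpolynomial.**
The first part is the negative answer to the question: `tildeC n / n ^ δ` tends to `0` for every
`δ > 0`. The second part is a quantitative form, valid for the worst-case cost as well. -/
theorem result :
    (∀ δ : ℝ, 0 < δ → Tendsto (fun n : ℕ => tildeC n / (n : ℝ) ^ δ) atTop (𝓝 0)) ∧
    ∃ K : ℝ, ∀ᶠ n : ℕ in atTop, tildeC n ≤ (worstC n : ℝ) ∧
      (worstC n : ℝ) ≤ Real.exp (K * √(Real.log n * Real.log (Real.log n))) := by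
  refine ⟨?_, 14, ?_⟩
  · intro δ hδ
    have hlog : Tendsto (fun n : ℕ => Real.log n) atTop atTop :=
      Real.tendsto_log_atTop.comp tendsto_natCast_atTop_atTop
    have hlo : ∀ᶠ x : ℝ in atTop, Real.log x ≤ δ ^ 2 / 784 * x := by
      have h := Real.isLittleO_log_id_atTop.bound (by positivity : (0 : ℝ) < δ ^ 2 / 784)
      filter_upwards [h, eventually_ge_atTop (1 : ℝ)] with x hx hx1
      rw [Real.norm_of_nonneg (Real.log_nonneg hx1), id, Real.norm_of_nonneg (by linarith)] at hx
      exact hx
    have hlim : Tendsto (fun n : ℕ => (n : ℝ) ^ (-(δ / 2))) atTop (𝓝 0) :=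
      (tendsto_rpow_neg_atTop (by positivity)).comp tendsto_natCast_atTop_atTop
    refine squeeze_zero' (Eventually.of_forall fun n => ?_) ?_ hlim
    · exact div_nonneg (tildeC_nonneg n) (by positivity)
    · filter_upwards [worstC_exp, hlog.eventually hlo,
        hlog.eventually (eventually_ge_atTop (1 : ℝ)), eventually_ge_atTop 1] with n h1 h2 h3 hn
      have hn0 : (0 : ℝ) < n := by exact_mod_cast hn
      rw [div_le_iff₀ (by positivity), ← Real.rpow_add hn0]
      refine ((tildeC_le n).trans h1).trans ?_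
      have h4 : -(δ / 2) + δ = δ / 2 := by ring
      rw [h4, Real.rpow_def_of_pos hn0]
      refine Real.exp_le_exp.2 ?_
      have h5 : √(Real.log n * Real.log (Real.log n)) ≤ δ / 28 * Real.log n := by
        rw [Real.sqrt_le_left (by positivity)]
        have h6 : Real.log n * Real.log (Real.log n) ≤ Real.log n * (δ ^ 2 / 784 * Real.log n) :=
          mul_le_mul_of_nonneg_left h2 (by linarith)
        refine h6.trans (le_of_eq ?_)
        ring
      calc 14 * √(Real.log n * Real.log (Real.log n)) ≤ 14 * (δ / 28 * Real.log n) := by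
            linarith
        _ = Real.log n * (δ / 2) := by ring
  · filter_upwards [worstC_exp] with n hn
    exact ⟨tildeC_le n, hn⟩

end Pool.Agent.Results.MP_a7c66d_lc.Subpolynomial
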